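import Pool.Agent.Helper49_HM.Dyn

/-!
# EMB: the embedding of Jacobi states into full coordinates
-/

set_option autoImplicit false

namespace Pool.Agent.HM.H10

open Complex Set Topology Pool.Agent.HM

noncomputable section

/-- Jacobi positions as three positions (first, second, outer) -/
def Q3 (μ : Fin 3 → ℝ) (p : ℂ × ℂ) : Fin 3 → ℂ :=
  ![-(w1 μ : ℂ) * p.1 - ((μ 2 / mT μ : ℝ) : ℂ) * p.2,
    (w0 μ : ℂ) * p.1 - ((μ 2 / mT μ : ℝ) : ℂ) * p.2,
    (((μ 0 + μ 1) / mT μ : ℝ) : ℂ) * p.2]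

theorem embP_eq (μ : Fin 3 → ℝ) (l : Equiv.Perm (Fin 3)) (p : ℂ × ℂ) (j : Fin 3) :
    embP μ l p (l j) = Q3 μ p j := by
  simp [embP, Q3]

theorem embP_comp (μ : Fin 3 → ℝ) (l : Equiv.Perm (Fin 3)) (p : ℂ × ℂ) :
    embP μ l p ∘ l = Q3 μ p := by
  funext j
  exact embP_eq μ l p j

section Perm

variable (m : Fin 3 → ℝ) (l : Equiv.Perm (Fin 3)) (q v : Conf)

theorem acc_perm (j : Fin 3) : acc m q (l j) = acc (lab m l) (q ∘ l) j := by
  unfold acc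
  symm
  refine Finset.sum_equiv l (fun i => ?_) (fun i _ => ?_)
  · simp
  · simp [lab]

theorem pot_sum : (m 0 * m 1 / ‖q 0 - q 1‖ + m 0 * m 2 / ‖q 0 - q 2‖ + m 1 * m 2 / ‖q 1 - q 2‖) =
    (∑ i, ∑ j, if i = j then 0 else m i * m j / ‖q i - q j‖) / 2 := by
  simp [Fin.sum_univ_three, norm_sub_rev (q 1) (q 0), norm_sub_rev (q 2) (q 0),
    norm_sub_rev (q 2) (q 1)]
  ring

theorem energy_perm : energy m q v = energy (lab m l) (q ∘ l) (v ∘ l) := by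
  unfold energy
  rw [pot_sum, pot_sum]
  have h1 : ∑ i, lab m l i * ‖(v ∘ l) i‖ ^ 2 = ∑ i, m i * ‖v i‖ ^ 2 :=
    Equiv.sum_comp l fun i => m i * ‖v i‖ ^ 2
  have h2 : (∑ i, ∑ j, if i = j then 0 else lab m l i * lab m l j / ‖(q ∘ l) i - (q ∘ l) j‖) =
      ∑ i, ∑ j, if i = j then 0 else m i * m j / ‖q i - q j‖ := by
    rw [← Equiv.sum_comp l fun i => ∑ j, if i = j then 0 else m i * m j / ‖q i - q j‖]
    refine Finset.sum_congr rfl fun i _ => ?_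
    rw [← Equiv.sum_comp l fun j => if l i = j then 0 else m (l i) * m j / ‖q (l i) - q j‖]
    simp [lab]
  rw [h1, h2]

theorem angMom_perm : angMom m q v = angMom (lab m l) (q ∘ l) (v ∘ l) := by
  unfold angMom
  exact (Equiv.sum_comp l fun i => m i * ((starRingEnd ℂ) (q i) * v i).im).symm

end Perm

section Jac

variable {μ : Fin 3 → ℝ} (hμ : ∀ i, 0 < μ i)

include hμ

theorem sub10 (p : ℂ × ℂ) : Q3 μ p 1 - Q3 μ p 0 = p.1 := by
  have h0 := hμ 0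
  have h1 := hμ 1
  have h2 : (w0 μ + w1 μ : ℝ) = 1 := by
    unfold w0 w1
    field_simp
  have h3 : (w0 μ : ℂ) + (w1 μ : ℂ) = 1 := by exact_mod_cast h2
  simp only [Q3, Matrix.cons_val_one, Matrix.cons_val_zero]
  linear_combination p.1 * h3

theorem sub20 (p : ℂ × ℂ) : Q3 μ p 2 - Q3 μ p 0 = vA μ p.1 p.2 := by
  have h0 := hμ 0
  have h1 := hμ 1
  have h2 := hμ 2
  have h3 : ((μ 0 + μ 1) / mT μ : ℝ) + μ 2 / mT μ = 1 := by
    unfold mT
    field_simp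
  have h4 : (((μ 0 + μ 1) / mT μ : ℝ) : ℂ) + ((μ 2 / mT μ : ℝ) : ℂ) = 1 := by exact_mod_cast h3
  simp only [Q3, vA, Matrix.cons_val]
  linear_combination p.2 * h4

theorem sub21 (p : ℂ × ℂ) : Q3 μ p 2 - Q3 μ p 1 = vB μ p.1 p.2 := by
  have h0 := hμ 0
  have h1 := hμ 1
  have h2 := hμ 2
  have h3 : ((μ 0 + μ 1) / mT μ : ℝ) + μ 2 / mT μ = 1 := by
    unfold mT
    field_simp
  have h4 : (((μ 0 + μ 1) / mT μ : ℝ) : ℂ) + ((μ 2 / mT μ : ℝ) : ℂ) = 1 := by exact_mod_cast h3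
  simp only [Q3, vB, Matrix.cons_val]
  linear_combination p.2 * h4

omit hμ in
theorem acc_eq (Q : Conf) (i : Fin 3) : acc μ Q i =
    ∑ j, (μ j : ℂ) * FF (Q j - Q i) := by
  unfold acc
  rw [Finset.sum_erase_eq_sub (Finset.mem_univ i)]
  simp [FF, mul_div_assoc]

omit hμ in
theorem FF_neg (z : ℂ) : FF (-z) = -FF z := by
  simp [FF, neg_div]

omit hμ in
theorem FF_zero : FF 0 = 0 := by
  simp [FF]

theorem acc_Q3 (X : JS) (j : Fin 3) : acc μ (Q3 μ (X.1, X.2.1)) j =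
    Q3 μ ((JVF μ X).2.2.1, (JVF μ X).2.2.2) j := by
  have h0 := hμ 0
  have h1 := hμ 1
  have h2 := hμ 2
  have hs : (0 : ℝ) < μ 0 + μ 1 := by linarith
  have hT : (0 : ℝ) < μ 0 + μ 1 + μ 2 := by linarith
  have hs' : ((μ 0 : ℂ) + (μ 1 : ℂ)) ≠ 0 := by exact_mod_cast hs.ne'
  have hT' : ((μ 0 : ℂ) + (μ 1 : ℂ) + (μ 2 : ℂ)) ≠ 0 := by exact_mod_cast hT.ne'
  have a10 := sub10 hμ (X.1, X.2.1)
  have a20 := sub20 hμ (X.1, X.2.1)
  have a21 := sub21 hμ (X.1, X.2.1)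
  simp only at a10 a20 a21
  have a01 : Q3 μ (X.1, X.2.1) 0 - Q3 μ (X.1, X.2.1) 1 = -X.1 := by
    rw [← neg_sub, a10]
  have a02 : Q3 μ (X.1, X.2.1) 0 - Q3 μ (X.1, X.2.1) 2 = -vA μ X.1 X.2.1 := by
    rw [← neg_sub, a20]
  have a12 : Q3 μ (X.1, X.2.1) 1 - Q3 μ (X.1, X.2.1) 2 = -vB μ X.1 X.2.1 := by
    rw [← neg_sub, a21]
  rw [acc_eq, Fin.sum_univ_three]
  generalize FF X.1 = f1 at *
  fin_cases j
  · simp only [Fin.zero_eta, Fin.isValue, sub_self, FF_zero, a10, a20]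
    simp only [Q3, JVF, w1, w0, mT, Matrix.cons_val_zero]
    push_cast
    field_simp
    ring
  · simp only [Fin.mk_one, Fin.isValue, sub_self, FF_zero, a01, a21, FF_neg]
    simp only [Q3, JVF, w1, w0, mT, Matrix.cons_val_one, Matrix.cons_val_zero]
    push_cast
    field_simp
    ring
  · simp only [Fin.reduceFinMk, Fin.isValue, sub_self, FF_zero, a02, a12, FF_neg]
    simp only [Q3, JVF, w1, w0, mT, Matrix.cons_val]
    push_cast
    field_simp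
    ring

theorem sum_Q3 (p : ℂ × ℂ) : ∑ j, (μ j : ℂ) * Q3 μ p j = 0 := by
  have h0 := hμ 0
  have h1 := hμ 1
  have h2 := hμ 2
  have hs : (0 : ℝ) < μ 0 + μ 1 := by linarith
  have hT : (0 : ℝ) < μ 0 + μ 1 + μ 2 := by linarith
  have hs' : ((μ 0 : ℂ) + (μ 1 : ℂ)) ≠ 0 := by exact_mod_cast hs.ne'
  have hT' : ((μ 0 : ℂ) + (μ 1 : ℂ) + (μ 2 : ℂ)) ≠ 0 := by exact_mod_cast hT.ne'
  rw [Fin.sum_univ_three]
  simp only [Q3, w1, w0, mT, Matrix.cons_val]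
  push_cast
  field_simp
  ring

/-- a quadratic form in Jacobi coordinates -/
theorem quad_Q3 (p r : ℂ × ℂ) : ∑ j, (μ j : ℂ) * ((starRingEnd ℂ) (Q3 μ p j) * Q3 μ r j) =
    (k1 μ : ℂ) * ((starRingEnd ℂ) p.1 * r.1) + (k2 μ : ℂ) * ((starRingEnd ℂ) p.2 * r.2) := by
  have h0 := hμ 0
  have h1 := hμ 1
  have h2 := hμ 2
  have hs : (0 : ℝ) < μ 0 + μ 1 := by linarith
  have hT : (0 : ℝ) < μ 0 + μ 1 + μ 2 := by linarith
  have hs' : ((μ 0 : ℂ) + (μ 1 : ℂ)) ≠ 0 := by exact_mod_cast hs.ne'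
  have hT' : ((μ 0 : ℂ) + (μ 1 : ℂ) + (μ 2 : ℂ)) ≠ 0 := by exact_mod_cast hT.ne'
  rw [Fin.sum_univ_three]
  simp only [Q3, w1, w0, mT, k1, k2, Matrix.cons_val, map_sub, map_mul, map_neg, conj_ofReal]
  push_cast
  field_simp
  ring

theorem kin_Q3 (p : ℂ × ℂ) : ∑ j, μ j * ‖Q3 μ p j‖ ^ 2 = k1 μ * ‖p.1‖ ^ 2 + k2 μ * ‖p.2‖ ^ 2 := by
  have h := quad_Q3 hμ p p
  simp only [conj_mul'] at h
  exact_mod_cast h

theorem ang_Q3 (p r : ℂ × ℂ) : ∑ j, μ j * ((starRingEnd ℂ) (Q3 μ p j) * Q3 μ r j).im =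
    k1 μ * cr p.1 r.1 + k2 μ * cr p.2 r.2 := by
  have h := congrArg Complex.im (quad_Q3 hμ p r)
  rw [Complex.im_sum] at h
  simpa only [Complex.add_im, Complex.im_ofReal_mul, cr] using h

end Jac

theorem embP_add (μ : Fin 3 → ℝ) (l : Equiv.Perm (Fin 3)) (p r : ℂ × ℂ) :
    embP μ l (p + r) = embP μ l p + embP μ l r := by
  funext i
  obtain ⟨j, rfl⟩ := l.surjective i
  rw [Pi.add_apply, embP_eq, embP_eq, embP_eq]
  fin_cases j <;> simp [Q3] <;> ring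

theorem embP_mul (μ : Fin 3 → ℝ) (l : Equiv.Perm (Fin 3)) (u : ℂ) (p : ℂ × ℂ) :
    embP μ l (u * p.1, u * p.2) = fun i => u * embP μ l p i := by
  funext i
  obtain ⟨j, rfl⟩ := l.surjective i
  rw [embP_eq, embP_eq]
  fin_cases j <;> simp [Q3] <;> ring

theorem embP_smul (μ : Fin 3 → ℝ) (l : Equiv.Perm (Fin 3)) (c : ℝ) (p : ℂ × ℂ) :
    embP μ l (c • p) = c • embP μ l p := by
  have h := embP_mul μ l (c : ℂ) p
  have h1 : ((c : ℂ) * p.1, (c : ℂ) * p.2) = c • p := by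
    ext <;> simp
  rw [h1] at h
  rw [h]
  funext i
  simp

/-- the embedding as a continuous linear map -/
def embL (μ : Fin 3 → ℝ) (l : Equiv.Perm (Fin 3)) : JS →L[ℝ] FS :=
  LinearMap.toContinuousLinearMap
    { toFun := emb μ l
      map_add' := by
        intro X Y
        simp only [HM.emb, Prod.fst_add, Prod.snd_add]
        rw [← Prod.mk_add_mk, ← Prod.mk_add_mk, embP_add, embP_add, Prod.mk_add_mk]
      map_smul' := by
        intro c X
        simp only [HM.emb, Prod.smul_fst, Prod.smul_snd, RingHom.id_apply]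
        rw [← Prod.smul_mk, ← Prod.smul_mk, embP_smul, embP_smul, Prod.smul_mk] }

theorem embL_apply (μ : Fin 3 → ℝ) (l : Equiv.Perm (Fin 3)) (X : JS) :
    embL μ l X = HM.emb μ l X := rfl

theorem emb_JVF {m : Fin 3 → ℝ} (hm : ∀ i, 0 < m i) (l : Equiv.Perm (Fin 3)) (X : JS) :
    HM.emb (lab m l) l (JVF (lab m l) X) = NVF m (HM.emb (lab m l) l X) := by
  have hμ : ∀ i, 0 < lab m l i := fun i => hm _
  refine Prod.ext rfl ?_
  funext i
  obtain ⟨j, rfl⟩ := l.surjective i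
  simp only [HM.emb, NVF]
  rw [acc_perm, embP_comp, acc_Q3 hμ X j, embP_eq]

theorem free_emb {m : Fin 3 → ℝ} (hm : ∀ i, 0 < m i) (l : Equiv.Perm (Fin 3)) (X : JS)
    (hX : Free (lab m l) X) : FreeF (HM.emb (lab m l) l X).1 := by
  have hμ : ∀ i, 0 < lab m l i := fun i => hm _
  have a10 := sub10 hμ (X.1, X.2.1)
  have a20 := sub20 hμ (X.1, X.2.1)
  have a21 := sub21 hμ (X.1, X.2.1)
  obtain ⟨h1, h2, h3⟩ := hX
  intro i i' hii
  obtain ⟨j, rfl⟩ := l.surjective i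
  obtain ⟨j', rfl⟩ := l.surjective i'
  simp only [HM.emb, embP_eq]
  intro h
  have hjj : j ≠ j' := fun h => hii (by rw [h])
  fin_cases j <;> fin_cases j'
  · exact hjj rfl
  · simp only [Fin.zero_eta, Fin.mk_one, Fin.isValue] at h
    rw [h, sub_self] at a10
    exact h1 a10.symm
  · simp only [Fin.zero_eta, Fin.reduceFinMk, Fin.isValue] at h
    rw [h, sub_self] at a20
    exact h2 a20.symm
  · simp only [Fin.zero_eta, Fin.mk_one, Fin.isValue] at h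
    rw [h, sub_self] at a10
    exact h1 a10.symm
  · exact hjj rfl
  · simp only [Fin.mk_one, Fin.reduceFinMk, Fin.isValue] at h
    rw [h, sub_self] at a21
    exact h3 a21.symm
  · simp only [Fin.zero_eta, Fin.reduceFinMk, Fin.isValue] at h
    rw [h, sub_self] at a20
    exact h2 a20.symm
  · simp only [Fin.mk_one, Fin.reduceFinMk, Fin.isValue] at h
    rw [h, sub_self] at a21
    exact h3 a21.symm
  · exact hjj rfl

/-- **EMB** -/
theorem emb : EmbStmt := by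
  intro m hm l
  have hμ : ∀ i, 0 < lab m l i := fun i => hm _
  refine ⟨?_, ?_, ?_, ?_, ?_, ?_⟩
  · intro T P hP τ hτ
    obtain ⟨h1, h2⟩ := hP τ hτ
    refine ⟨free_emb hm l _ h1, ?_⟩
    have h3 := (embL (lab m l) l).hasFDerivAt.comp_hasDerivWithinAt τ h2
    have h4 : embL (lab m l) l (T • JVF (lab m l) (P τ)) =
        T • NVF m (HM.emb (lab m l) l (P τ)) := by
      rw [map_smul, embL_apply, emb_JVF hm]
    rw [h4] at h3
    exact h3
  · intro X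
    rw [← Equiv.sum_comp l]
    simp only [HM.emb, embP_eq]
    exact sum_Q3 hμ _
  · intro X
    rw [energy_perm m l]
    simp only [HM.emb, embP_comp]
    have a10 := sub10 hμ (X.1, X.2.1)
    have a20 := sub20 hμ (X.1, X.2.1)
    have a21 := sub21 hμ (X.1, X.2.1)
    simp only at a10 a20 a21
    unfold energy JE
    rw [kin_Q3 hμ, norm_sub_rev (Q3 _ _ 0) (Q3 _ _ 1), norm_sub_rev (Q3 _ _ 0) (Q3 _ _ 2),
      norm_sub_rev (Q3 _ _ 1) (Q3 _ _ 2), a10, a20, a21]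
    ring
  · intro X
    rw [angMom_perm m l]
    simp only [HM.emb, embP_comp]
    exact ang_Q3 hμ _ _
  · intro X u
    simp only [HM.emb, rotJ, rotF]
    rw [embP_mul _ _ u (X.1, X.2.1), embP_mul _ _ u (X.2.2.1, X.2.2.2)]
  · intro X
    simp only [HM.emb, embP_eq]
    rw [sub10 hμ, sub20 hμ]
    rfl

end

end Pool.Agent.HM.H10
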