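import Pool.Agent.Helper49_HM.Iface

/-!
# STEQ: an incoming state is determined, up to rotation, by its elements
-/

set_option autoImplicit false

namespace Pool.Agent.HM.H10

open Complex Set Topology Pool.Agent.HM

noncomputable section

/-! ### the core inequality -/

theorem core_real {r1 r2 a1 a2 b1 b2 c M t D : ℝ} (hr1 : 0 < r1) (hr2 : 0 < r2) (hM : 0 < M)
    (hc : c ≠ 0) (hb1 : r1 * b1 = c) (hb2 : r2 * b2 = c) (ht : 0 < t)
    (hA : c * b2 / M - 1 = t * (c * b1 / M - 1)) (hB : c * a2 / M = t * (c * a1 / M))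
    (hW : |((a2 ^ 2 + b2 ^ 2) / 2 - M / r2) - ((a1 ^ 2 + b1 ^ 2) / 2 - M / r1)| ≤ D * |r1 - r2|)
    (hD : 2 * D * r1 * r2 ≤ M / 2)
    (hE : 0.81 ≤ (c * b1 / M - 1) ^ 2 + (c * a1 / M) ^ 2) : r1 = r2 ∧ a1 = a2 ∧ b1 = b2 := by
  have hM' := hM.ne'
  have hr1' := hr1.ne'
  have hr2' := hr2.ne'
  set A := c * b1 / M - 1 with hAdef
  set B := c * a1 / M with hBdef
  set E := A ^ 2 + B ^ 2 with hEdef
  -- energy identity
  have e1 : E = 1 + 2 * c ^ 2 / M ^ 2 * ((a1 ^ 2 + b1 ^ 2) / 2 - M / r1) := by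
    have : c / r1 = b1 := by rw [← hb1]; field_simp
    have h2 : c * (M / r1) = M * b1 := by rw [← this]; ring
    have h3 : c ^ 2 * (M / r1) = M * b1 * c := by rw [← h2]; ring
    have h4 : 2 * c ^ 2 / M ^ 2 * ((a1 ^ 2 + b1 ^ 2) / 2 - M / r1) =
        (c ^ 2 * (a1 ^ 2 + b1 ^ 2) - 2 * (c ^ 2 * (M / r1))) / M ^ 2 := by ring
    rw [h4, h3, hEdef, hAdef, hBdef]
    field_simp
    ring
  have e2 : (t * A) ^ 2 + (t * B) ^ 2 =
      1 + 2 * c ^ 2 / M ^ 2 * ((a2 ^ 2 + b2 ^ 2) / 2 - M / r2) := by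
    rw [← hA, ← hB]
    have : c / r2 = b2 := by rw [← hb2]; field_simp
    have h2 : c * (M / r2) = M * b2 := by rw [← this]; ring
    have h3 : c ^ 2 * (M / r2) = M * b2 * c := by rw [← h2]; ring
    have h4 : 2 * c ^ 2 / M ^ 2 * ((a2 ^ 2 + b2 ^ 2) / 2 - M / r2) =
        (c ^ 2 * (a2 ^ 2 + b2 ^ 2) - 2 * (c ^ 2 * (M / r2))) / M ^ 2 := by ring
    rw [h4, h3]
    field_simp
    ring
  have e3 : (t ^ 2 - 1) * E = 2 * c ^ 2 / M ^ 2 *
      (((a2 ^ 2 + b2 ^ 2) / 2 - M / r2) - ((a1 ^ 2 + b1 ^ 2) / 2 - M / r1)) := by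
    have : (t * A) ^ 2 + (t * B) ^ 2 = t ^ 2 * E := by rw [hEdef]; ring
    rw [this] at e2
    linear_combination e2 - e1
  -- the radii
  have e4 : c ^ 2 * (r1 - r2) = (t - 1) * A * (M * (r1 * r2)) := by
    have h1 : b1 = c / r1 := by rw [← hb1]; field_simp
    have h2 : b2 = c / r2 := by rw [← hb2]; field_simp
    have h3 : c * b2 / M - c * b1 / M = (t - 1) * A := by
      linear_combination hA
    rw [← h3, h1, h2]
    field_simp
  have hc2 : 0 < c ^ 2 := by positivity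
  have hE0 : 0 < E := by linarith
  by_cases htt : t = 1
  · rw [htt] at e4 hA hB
    have h1 : r1 = r2 := by
      have h2 : c ^ 2 * (r1 - r2) = 0 := by rw [e4]; ring
      rcases mul_eq_zero.1 h2 with h | h
      · exact absurd h hc2.ne'
      · linarith
    refine ⟨h1, ?_, ?_⟩
    · rw [one_mul, hBdef] at hB
      exact (mul_left_cancel₀ hc ((div_left_inj' hM').1 hB)).symm
    · rw [one_mul, hAdef] at hA
      have h3 : c * b2 / M = c * b1 / M := by linarith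
      exact (mul_left_cancel₀ hc ((div_left_inj' hM').1 h3)).symm
  exfalso
  have habs : |t ^ 2 - 1| * E ≤ 2 * c ^ 2 / M ^ 2 * (D * |r1 - r2|) := by
    have h1 : |(t ^ 2 - 1) * E| = |t ^ 2 - 1| * E := by rw [abs_mul, abs_of_pos hE0]
    rw [← h1, e3, abs_mul, abs_of_nonneg (by positivity : (0 : ℝ) ≤ 2 * c ^ 2 / M ^ 2)]
    exact mul_le_mul_of_nonneg_left hW (by positivity)
  have h5 : c ^ 2 * |r1 - r2| = |t - 1| * |A| * (M * (r1 * r2)) := by
    have h51 : c ^ 2 * |r1 - r2| = |c ^ 2 * (r1 - r2)| := by rw [abs_mul, abs_of_pos hc2]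
    rw [h51, e4, abs_mul, abs_mul, abs_of_pos (by positivity : 0 < M * (r1 * r2))]
  have h6 : |t ^ 2 - 1| = |t - 1| * (t + 1) := by
    rw [show t ^ 2 - 1 = (t - 1) * (t + 1) by ring, abs_mul, abs_of_pos (by linarith : 0 < t + 1)]
  have h7 : 0 < |t - 1| := abs_pos.2 (sub_ne_zero.2 htt)
  have h8 : 2 * c ^ 2 / M ^ 2 * (D * |r1 - r2|) = |t - 1| * (|A| * (2 * D * r1 * r2 / M)) := by
    have : 2 * c ^ 2 / M ^ 2 * (D * |r1 - r2|) = 2 * D / M ^ 2 * (c ^ 2 * |r1 - r2|) := by ring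
    rw [this, h5]
    field_simp
  rw [h6, h8, mul_assoc] at habs
  have h9 : (t + 1) * E ≤ |A| * (2 * D * r1 * r2 / M) := le_of_mul_le_mul_left habs h7
  have h10 : 2 * D * r1 * r2 / M ≤ 1 / 2 := by
    rw [div_le_iff₀ hM]
    linarith
  have h11 : |A| * (2 * D * r1 * r2 / M) ≤ |A| * (1 / 2) :=
    mul_le_mul_of_nonneg_left h10 (abs_nonneg A)
  have h12 : 0.9 * |A| ≤ E := by
    have h13 : |A| ^ 2 ≤ E := by
      rw [sq_abs, hEdef]
      exact le_add_of_nonneg_right (sq_nonneg B)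
    rcases le_total |A| 0.9 with h | h
    · linarith
    · have h14 : 0.9 * |A| ≤ |A| * |A| := mul_le_mul_of_nonneg_right h (abs_nonneg A)
      rw [sq] at h13
      linarith
  have h15 : 0 < t * E := mul_pos ht hE0
  have h16 : (t + 1) * E = t * E + E := by ring
  linarith

/-! ### uniqueness of the outer radius -/

theorem radius_unique {R1 R2 S d mt : ℝ} (h1 : 15 ≤ R1) (h2 : 15 ≤ R2) (hd : d ^ 2 ≤ 1)
    (hm : 1 ≤ mt)
    (h : (S ^ 2 + (d / R1) ^ 2) / 3 - 2 * mt / (3 * R1) =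
      (S ^ 2 + (d / R2) ^ 2) / 3 - 2 * mt / (3 * R2)) : R1 = R2 := by
  have hR1 : 0 < R1 := by linarith
  have hR2 : 0 < R2 := by linarith
  have e1 : (d / R1) ^ 2 - (d / R2) ^ 2 - 2 * mt * (1 / R1 - 1 / R2) = 0 := by
    have h3 : 2 * mt / (3 * R1) = 2 * mt * (1 / R1) / 3 := by field_simp
    have h4 : 2 * mt / (3 * R2) = 2 * mt * (1 / R2) / 3 := by field_simp
    rw [h3, h4] at h
    linear_combination 3 * h
  have e2 : (1 / R1 - 1 / R2) * (d ^ 2 * (1 / R1 + 1 / R2) - 2 * mt) = 0 := by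
    rw [← e1]
    field_simp
    ring
  rcases mul_eq_zero.1 e2 with h5 | h5
  · have : 1 / R1 = 1 / R2 := by linarith
    field_simp at this
    linarith
  · exfalso
    have h6 : 1 / R1 ≤ 1 / 15 := one_div_le_one_div_of_le (by norm_num) h1
    have h7 : 1 / R2 ≤ 1 / 15 := one_div_le_one_div_of_le (by norm_num) h2
    have h8 : 0 ≤ 1 / R1 + 1 / R2 := by positivity
    have h9 : d ^ 2 * (1 / R1 + 1 / R2) ≤ 1 * (1 / R1 + 1 / R2) :=
      mul_le_mul_of_nonneg_right hd h8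
    linarith

/-! ### plane vectors -/

theorem sq_dt_cr (z w : ℂ) : ‖z‖ ^ 2 * ‖w‖ ^ 2 = dt z w ^ 2 + cr z w ^ 2 := by
  have h1 : ‖z‖ ^ 2 * ‖w‖ ^ 2 = ‖(starRingEnd ℂ) z * w‖ ^ 2 := by
    rw [norm_mul, RCLike.norm_conj]
    ring
  rw [h1, ← Complex.normSq_eq_norm_sq, Complex.normSq_apply]
  simp only [dt, cr]
  ring

theorem conj_mul_unit {u : ℂ} (hu : ‖u‖ = 1) : (starRingEnd ℂ) u * u = 1 := by
  rw [conj_mul', hu]
  simp

theorem cr_rot {u : ℂ} (hu : ‖u‖ = 1) (z w : ℂ) : cr (u * z) (u * w) = cr z w := by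
  simp only [cr, map_mul]
  have h : (starRingEnd ℂ) u * (starRingEnd ℂ) z * (u * w) =
      ((starRingEnd ℂ) u * u) * ((starRingEnd ℂ) z * w) := by ring
  rw [h, conj_mul_unit hu, one_mul]

theorem vA_rot (m : Fin 3 → ℝ) (u ρ lam : ℂ) : vA m (u * ρ) (u * lam) = u * vA m ρ lam := by
  simp only [vA]
  ring

theorem vB_rot (m : Fin 3 → ℝ) (u ρ lam : ℂ) : vB m (u * ρ) (u * lam) = u * vB m ρ lam := by
  simp only [vB]
  ring

theorem lrl_rot (m : Fin 3 → ℝ) {u : ℂ} (hu : ‖u‖ = 1) (X : JS) :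
    lrl m (rotJ u X) = u * lrl m X := by
  simp only [lrl, rotJ]
  rw [cr_rot hu, norm_mul, hu, one_mul]
  ring

theorem outm_rot (m : Fin 3 → ℝ) {u : ℂ} (hu : ‖u‖ = 1) (X : JS) :
    outm m (rotJ u X) = u * outm m X := by
  simp only [outm, rotJ]
  rw [cr_rot hu, norm_mul, hu, one_mul]
  ring

theorem gg_rot (m : Fin 3 → ℝ) {u : ℂ} (hu : ‖u‖ = 1) (X : JS) :
    gg m (rotJ u X) = gg m X := by
  simp only [gg]
  rw [lrl_rot m hu, outm_rot m hu, map_mul]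
  have h : u * lrl m X * ((starRingEnd ℂ) u * (starRingEnd ℂ) (outm m X)) =
      ((starRingEnd ℂ) u * u) * (lrl m X * (starRingEnd ℂ) (outm m X)) := by ring
  rw [h, conj_mul_unit hu, one_mul]

theorem JE_rot (m : Fin 3 → ℝ) {u : ℂ} (hu : ‖u‖ = 1) (X : JS) :
    JE m (rotJ u X) = JE m X := by
  simp only [JE, rotJ]
  rw [vA_rot, vB_rot]
  simp only [norm_mul, hu, one_mul]

/-- polar form of the binary -/
theorem polar (m : Fin 3 → ℝ) {ρ v w : ℂ} {r c : ℝ} (hr : 0 < r) (hw : ‖w‖ = 1)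
    (hρ : ρ = r * w) (hc : cr ρ v = c) : ∃ a b : ℝ, v = w * (a + b * I) ∧ r * b = c ∧
      ‖v‖ ^ 2 = a ^ 2 + b ^ 2 ∧
      -(I * (cr ρ v : ℂ) * v) / ((m 0 + m 1 : ℝ) : ℂ) - ρ / (‖ρ‖ : ℂ) =
        w * (((c * b / (m 0 + m 1) - 1 : ℝ) : ℂ) - ((c * a / (m 0 + m 1) : ℝ) : ℂ) * I) := by
  have hww := conj_mul_unit hw
  set z := (starRingEnd ℂ) w * v with hz
  have hv : v = w * (z.re + z.im * I) := by
    rw [Complex.re_add_im, hz, ← mul_assoc, mul_comm w, hww, one_mul]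
  refine ⟨z.re, z.im, hv, ?_, ?_, ?_⟩
  · rw [← hc, hρ]
    simp only [cr, map_mul, conj_ofReal]
    rw [mul_assoc, ← hz, Complex.im_ofReal_mul]
  · have h1 : ‖z‖ = ‖v‖ := by rw [hz, norm_mul, RCLike.norm_conj, hw, one_mul]
    rw [← h1, ← Complex.normSq_eq_norm_sq, Complex.normSq_apply]
    ring
  · rw [hc, hρ, norm_mul, hw, mul_one, Complex.norm_real, Real.norm_of_nonneg hr.le,
      mul_div_cancel_left₀ _ (by exact_mod_cast hr.ne' : (r : ℂ) ≠ 0)]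
    conv_lhs => rw [hv]
    push_cast
    ring_nf
    rw [I_sq]
    ring

end

end Pool.Agent.HM.H10
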