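import Pool.Agent.Helper10_HM.Steq

/-!
# STEQ: the theorem
-/

set_option autoImplicit false

namespace Pool.Agent.HM.H10

open Complex Set Topology Pool.Agent.HM

noncomputable section

/-- the potential of the outer body -/
def WW (m : Fin 3 → ℝ) (ρ lam : ℂ) : ℝ := m 0 * m 2 / ‖vA m ρ lam‖ + m 1 * m 2 / ‖vB m ρ lam‖

section

variable {m : Fin 3 → ℝ} (hm : Near1 0.01 m)

include hm

theorem mpos (i : Fin 3) : 0.99 < m i ∧ m i < 1.01 := by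
  have := abs_lt.1 (hm i)
  constructor <;> linarith [this.1, this.2]

theorem w0_bd : 0 < w0 m ∧ w0 m ≤ 0.51 := by
  obtain ⟨h1, h2⟩ := mpos hm 0
  obtain ⟨h3, h4⟩ := mpos hm 1
  have h5 : 0 < m 0 + m 1 := by linarith
  unfold w0
  constructor
  · exact div_pos (by linarith) h5
  · rw [div_le_iff₀ h5]
    linarith

theorem w1_bd : 0 < w1 m ∧ w1 m ≤ 0.51 := by
  obtain ⟨h1, h2⟩ := mpos hm 0
  obtain ⟨h3, h4⟩ := mpos hm 1
  have h5 : 0 < m 0 + m 1 := by linarith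
  unfold w1
  constructor
  · exact div_pos (by linarith) h5
  · rw [div_le_iff₀ h5]
    linarith

theorem k1_bd : 0.49 ≤ k1 m := by
  obtain ⟨h1, h2⟩ := mpos hm 0
  obtain ⟨h3, h4⟩ := mpos hm 1
  have h5 : 0 < m 0 + m 1 := by linarith
  unfold k1
  rw [le_div_iff₀ h5]
  nlinarith

theorem k2_bd : 0.64 ≤ k2 m ∧ k2 m ≤ 0.7 := by
  obtain ⟨h1, h2⟩ := mpos hm 0
  obtain ⟨h3, h4⟩ := mpos hm 1
  obtain ⟨h6, h7⟩ := mpos hm 2
  have h5 : 0 < m 0 + m 1 + m 2 := by linarith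
  unfold k2
  constructor
  · rw [le_div_iff₀ h5]
    nlinarith
  · rw [div_le_iff₀ h5]
    nlinarith

theorem vA_bd {ρ lam : ℂ} (hl : 15 ≤ ‖lam‖) (hρ : ‖ρ‖ ≤ 3.3) : 13 ≤ ‖vA m ρ lam‖ := by
  obtain ⟨h1, h2⟩ := w1_bd hm
  have h3 : ‖lam‖ ≤ ‖vA m ρ lam‖ + ‖(w1 m : ℂ) * ρ‖ := by
    have h4 : lam = vA m ρ lam - (w1 m : ℂ) * ρ := by
      simp only [vA]
      ring
    conv_lhs => rw [h4]
    exact norm_sub_le _ _
  rw [norm_mul, Complex.norm_real, Real.norm_of_nonneg h1.le] at h3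
  have h5 : w1 m * ‖ρ‖ ≤ 0.51 * 3.3 := mul_le_mul h2 hρ (norm_nonneg _) (by norm_num)
  linarith

theorem vB_bd {ρ lam : ℂ} (hl : 15 ≤ ‖lam‖) (hρ : ‖ρ‖ ≤ 3.3) : 13 ≤ ‖vB m ρ lam‖ := by
  obtain ⟨h1, h2⟩ := w0_bd hm
  have h3 : ‖lam‖ ≤ ‖vB m ρ lam‖ + ‖(w0 m : ℂ) * ρ‖ := by
    have h4 : lam = vB m ρ lam + (w0 m : ℂ) * ρ := by
      simp only [vB]
      ring
    conv_lhs => rw [h4]
    exact norm_add_le _ _
  rw [norm_mul, Complex.norm_real, Real.norm_of_nonneg h1.le] at h3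
  have h5 : w0 m * ‖ρ‖ ≤ 0.51 * 3.3 := mul_le_mul h2 hρ (norm_nonneg _) (by norm_num)
  linarith

omit hm in
theorem inv_lip {z z' : ℂ} (h : 13 ≤ ‖z‖) (h' : 13 ≤ ‖z'‖) {δ : ℝ} (hδ : ‖z - z'‖ ≤ δ) :
    |1 / ‖z‖ - 1 / ‖z'‖| ≤ δ / 169 := by
  have h1 : 0 < ‖z‖ := by linarith
  have h2 : 0 < ‖z'‖ := by linarith
  have h3 : 1 / ‖z‖ - 1 / ‖z'‖ = (‖z'‖ - ‖z‖) / (‖z‖ * ‖z'‖) := by
    field_simp
  have h4 : |‖z'‖ - ‖z‖| ≤ δ := by
    rw [abs_sub_comm]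
    exact (abs_norm_sub_norm_le z z').trans hδ
  have h5 : (169 : ℝ) ≤ ‖z‖ * ‖z'‖ := by
    calc (169 : ℝ) = 13 * 13 := by norm_num
      _ ≤ ‖z‖ * ‖z'‖ := mul_le_mul h h' (by norm_num) h1.le
  rw [h3, abs_div, abs_of_pos (by positivity : 0 < ‖z‖ * ‖z'‖)]
  exact div_le_div₀ ((abs_nonneg _).trans h4) h4 (by norm_num) h5

theorem WW_lip {w lam : ℂ} {r1 r2 : ℝ} (hw : ‖w‖ = 1) (hl : 15 ≤ ‖lam‖) (h1 : 0 ≤ r1)
    (h1' : r1 ≤ 3.3) (h2 : 0 ≤ r2) (h2' : r2 ≤ 3.3) :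
    |WW m (r2 * w) lam - WW m (r1 * w) lam| ≤ k1 m * (0.012 * |r1 - r2|) := by
  obtain ⟨a1, a2⟩ := mpos hm 0
  obtain ⟨b1, b2⟩ := mpos hm 1
  obtain ⟨c1, c2⟩ := mpos hm 2
  have hn1 : ‖(r1 : ℂ) * w‖ ≤ 3.3 := by
    rw [norm_mul, hw, mul_one, Complex.norm_real, Real.norm_of_nonneg h1]
    exact h1'
  have hn2 : ‖(r2 : ℂ) * w‖ ≤ 3.3 := by
    rw [norm_mul, hw, mul_one, Complex.norm_real, Real.norm_of_nonneg h2]
    exact h2'
  have hw1 := (w1_bd hm).1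
  have hw0 := (w0_bd hm).1
  have hA : ‖vA m (r2 * w) lam - vA m (r1 * w) lam‖ ≤ w1 m * |r1 - r2| := by
    have : vA m (r2 * w) lam - vA m (r1 * w) lam = ((w1 m * (r2 - r1) : ℝ) : ℂ) * w := by
      simp only [vA]
      push_cast
      ring
    rw [this, norm_mul, hw, mul_one, Complex.norm_real, Real.norm_eq_abs, abs_mul,
      abs_of_pos hw1, abs_sub_comm]
  have hB : ‖vB m (r2 * w) lam - vB m (r1 * w) lam‖ ≤ w0 m * |r1 - r2| := by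
    have : vB m (r2 * w) lam - vB m (r1 * w) lam = ((w0 m * (r1 - r2) : ℝ) : ℂ) * w := by
      simp only [vB]
      push_cast
      ring
    rw [this, norm_mul, hw, mul_one, Complex.norm_real, Real.norm_eq_abs, abs_mul,
      abs_of_pos hw0]
  have h3 := inv_lip (vA_bd hm hl hn2) (vA_bd hm hl hn1) hA
  have h4 := inv_lip (vB_bd hm hl hn2) (vB_bd hm hl hn1) hB
  have h5 : WW m (r2 * w) lam - WW m (r1 * w) lam =
      m 0 * m 2 * (1 / ‖vA m (r2 * w) lam‖ - 1 / ‖vA m (r1 * w) lam‖) +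
      m 1 * m 2 * (1 / ‖vB m (r2 * w) lam‖ - 1 / ‖vB m (r1 * w) lam‖) := by
    simp only [WW]
    ring
  have h6 : 0 < m 0 * m 2 := by apply mul_pos <;> linarith
  have h7 : 0 < m 1 * m 2 := by apply mul_pos <;> linarith
  rw [h5]
  refine (abs_add_le _ _).trans ?_
  rw [abs_mul (m 0 * m 2), abs_mul (m 1 * m 2), abs_of_pos h6, abs_of_pos h7]
  have h8 := mul_le_mul_of_nonneg_left h3 h6.le
  have h9 := mul_le_mul_of_nonneg_left h4 h7.le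
  have h10 : m 0 * w1 m = k1 m := by
    unfold w1 k1
    ring
  have h11 : m 1 * w0 m = k1 m := by
    unfold w0 k1
    ring
  have h12 : m 0 * m 2 * (w1 m * |r1 - r2| / 169) = k1 m * (m 2 * |r1 - r2| / 169) := by
    rw [← h10]
    ring
  have h13 : m 1 * m 2 * (w0 m * |r1 - r2| / 169) = k1 m * (m 2 * |r1 - r2| / 169) := by
    rw [← h11]
    ring
  rw [h12] at h8
  rw [h13] at h9
  have h14 : m 2 * |r1 - r2| ≤ 1.01 * |r1 - r2| := mul_le_mul_of_nonneg_right c2.le (abs_nonneg _)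
  have h15 : m 2 * |r1 - r2| / 169 + m 2 * |r1 - r2| / 169 ≤ 0.012 * |r1 - r2| := by
    have := abs_nonneg (r1 - r2)
    linarith
  have h16 : 0 < k1 m := lt_of_lt_of_le (by norm_num) (k1_bd hm)
  have h17 := mul_le_mul_of_nonneg_left h15 h16.le
  linarith

omit hm in
/-- square of the length of the Laplace vector -/
theorem ecc_sq {r a b c M : ℝ} (hr : 0 < r) (hM : 0 < M) (hb : r * b = c) :
    (c * b / M - 1) ^ 2 + (c * a / M) ^ 2 =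
      1 + 2 * c ^ 2 / M ^ 2 * ((a ^ 2 + b ^ 2) / 2 - M / r) := by
  have hM' := hM.ne'
  have hr' := hr.ne'
  have h1 : b = c / r := by
    rw [← hb]
    field_simp
  rw [h1]
  field_simp
  ring

/-- the Kepler energy of the binary -/
theorem hb_eq {ρ lam v ν : ℂ} (h : JE m (ρ, lam, v, ν) = -1) :
    k1 m * (‖v‖ ^ 2 / 2 - (m 0 + m 1) / ‖ρ‖) = -1 - k2 m / 2 * ‖ν‖ ^ 2 + WW m ρ lam := by
  obtain ⟨a1, a2⟩ := mpos hm 0
  obtain ⟨b1, b2⟩ := mpos hm 1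
  have h5 : 0 < m 0 + m 1 := by linarith
  have h1 : k1 m * ((m 0 + m 1) / ‖ρ‖) = m 0 * m 1 / ‖ρ‖ := by
    unfold k1
    field_simp
  simp only [JE] at h
  simp only [WW]
  rw [mul_sub, h1]
  linear_combination h

theorem ecc_bd {ρ lam v ν : ℂ} {r a b c : ℝ} (hr : 0 < r) (hρ : ‖ρ‖ = r)
    (h : JE m (ρ, lam, v, ν) = -1) (hν : ‖ν‖ ^ 2 ≤ 0.42) (hb : r * b = c) (hc : |c| ≤ 0.11)
    (hv : ‖v‖ ^ 2 = a ^ 2 + b ^ 2) :
    0.81 ≤ (c * b / (m 0 + m 1) - 1) ^ 2 + (c * a / (m 0 + m 1)) ^ 2 := by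
  obtain ⟨a1, a2⟩ := mpos hm 0
  obtain ⟨b1, b2⟩ := mpos hm 1
  obtain ⟨c1, c2⟩ := mpos hm 2
  have hM : 0 < m 0 + m 1 := by linarith
  have hk1 := k1_bd hm
  have hk2 := k2_bd hm
  rw [ecc_sq hr hM hb]
  have h1 := hb_eq hm h
  rw [hρ, hv] at h1
  have h2 : 0 ≤ WW m ρ lam := by
    unfold WW
    have h3 : 0 < m 0 * m 2 := by apply mul_pos <;> linarith
    have h4 : 0 < m 1 * m 2 := by apply mul_pos <;> linarith
    positivity
  set hbv := (a ^ 2 + b ^ 2) / 2 - (m 0 + m 1) / r with hbdef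
  have h3 : k2 m / 2 * ‖ν‖ ^ 2 ≤ 0.35 * 0.42 :=
    mul_le_mul (by linarith) hν (by positivity) (by norm_num)
  have h4 : -1.2 ≤ k1 m * hbv := by
    rw [h1]
    linarith
  have h5 : -2.5 ≤ hbv := by
    by_contra hcon
    rw [not_le] at hcon
    have h6 : k1 m * hbv ≤ 0.49 * hbv := by
      have h7 : (k1 m - 0.49) * hbv ≤ 0 := mul_nonpos_of_nonneg_of_nonpos (by linarith) (by linarith)
      linarith
    linarith
  have h6 : c ^ 2 ≤ 0.0121 := by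
    rw [← sq_abs]
    have := mul_le_mul hc hc (abs_nonneg c) (by norm_num)
    rw [sq]
    linarith
  have h7 : 2 * c ^ 2 / (m 0 + m 1) ^ 2 ≤ 0.01 := by
    rw [div_le_iff₀ (by positivity)]
    have h8 : (3.9 : ℝ) ≤ (m 0 + m 1) ^ 2 := by
      have := mul_le_mul (by linarith : (1.98 : ℝ) ≤ m 0 + m 1)
        (by linarith : (1.98 : ℝ) ≤ m 0 + m 1) (by norm_num) hM.le
      rw [sq]
      linarith
    linarith
  have h8 : 0 ≤ 2 * c ^ 2 / (m 0 + m 1) ^ 2 := by positivity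
  have h9 : 2 * c ^ 2 / (m 0 + m 1) ^ 2 * (-2.5) ≤ 2 * c ^ 2 / (m 0 + m 1) ^ 2 * hbv :=
    mul_le_mul_of_nonneg_left h5 h8
  linarith

/-- the aligned case -/
theorem steq_core {lam ν w v1 v2 : ℂ} {r1 r2 c : ℝ} (hw : ‖w‖ = 1) (hl : 15 ≤ ‖lam‖)
    (hr1 : 0 < r1) (hr1' : r1 ≤ 3.3) (hr2 : 0 < r2) (hr2' : r2 ≤ 3.3)
    (hc1 : cr (r1 * w) v1 = c) (hc2 : cr (r2 * w) v2 = c) (hc0 : c ≠ 0) (hc : |c| ≤ 0.11)
    (hE1 : JE m (r1 * w, lam, v1, ν) = -1) (hE2 : JE m (r2 * w, lam, v2, ν) = -1)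
    (hν : ‖ν‖ ^ 2 ≤ 0.42) {K : ℂ} (hK : K ≠ 0)
    (hg : arg (lrl m (r1 * w, lam, v1, ν) * K) = arg (lrl m (r2 * w, lam, v2, ν) * K)) :
    r1 = r2 ∧ v1 = v2 := by
  obtain ⟨m1, m2⟩ := mpos hm 0
  obtain ⟨m3, m4⟩ := mpos hm 1
  have hM : 0 < m 0 + m 1 := by linarith
  have hk1 := k1_bd hm
  have hk : 0 < k1 m := by linarith
  have hw0 : w ≠ 0 := by
    rintro rfl
    simp at hw
  have hn1 : ‖(r1 : ℂ) * w‖ = r1 := by
    rw [norm_mul, hw, mul_one, Complex.norm_real, Real.norm_of_nonneg hr1.le]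
  have hn2 : ‖(r2 : ℂ) * w‖ = r2 := by
    rw [norm_mul, hw, mul_one, Complex.norm_real, Real.norm_of_nonneg hr2.le]
  obtain ⟨a1, b1, hv1, hb1, hs1, hl1⟩ := polar m hr1 hw rfl hc1
  obtain ⟨a2, b2, hv2, hb2, hs2, hl2⟩ := polar m hr2 hw rfl hc2
  have e1 := ecc_bd hm hr1 hn1 hE1 hν hb1 hc hs1
  have e2 := ecc_bd hm hr2 hn2 hE2 hν hb2 hc hs2
  have L1 : lrl m (r1 * w, lam, v1, ν) = w * (((c * b1 / (m 0 + m 1) - 1 : ℝ) : ℂ) -
      ((c * a1 / (m 0 + m 1) : ℝ) : ℂ) * I) := hl1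
  have L2 : lrl m (r2 * w, lam, v2, ν) = w * (((c * b2 / (m 0 + m 1) - 1 : ℝ) : ℂ) -
      ((c * a2 / (m 0 + m 1) : ℝ) : ℂ) * I) := hl2
  have hne : ∀ A B : ℝ, 0.81 ≤ A ^ 2 + B ^ 2 → w * ((A : ℂ) - (B : ℂ) * I) * K ≠ 0 := by
    intro A B hAB h0
    rcases mul_eq_zero.1 h0 with h1 | h1
    · rcases mul_eq_zero.1 h1 with h2 | h2
      · exact hw0 h2
      · have h3 := congrArg Complex.re h2
        have h4 := congrArg Complex.im h2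
        simp at h3 h4
        rw [h3, h4] at hAB
        norm_num at hAB
    · exact hK h1
  rw [L1, L2] at hg
  have n1 := hne _ _ e1
  have n2 := hne _ _ e2
  have h1 := (Complex.arg_eq_arg_iff n1 n2).1 hg
  set x := w * (((c * b1 / (m 0 + m 1) - 1 : ℝ) : ℂ) - ((c * a1 / (m 0 + m 1) : ℝ) : ℂ) * I) * K
    with hx
  set y := w * (((c * b2 / (m 0 + m 1) - 1 : ℝ) : ℂ) - ((c * a2 / (m 0 + m 1) : ℝ) : ℂ) * I) * K
    with hy
  set t : ℝ := ‖y‖ / ‖x‖ with ht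
  have ht0 : 0 < t := div_pos (norm_pos_iff.2 n2) (norm_pos_iff.2 n1)
  have h2 : ((t : ℝ) : ℂ) * x = y := by
    rw [ht]
    push_cast
    exact h1
  have h3 : (t : ℂ) * (((c * b1 / (m 0 + m 1) - 1 : ℝ) : ℂ) -
      ((c * a1 / (m 0 + m 1) : ℝ) : ℂ) * I) = (((c * b2 / (m 0 + m 1) - 1 : ℝ) : ℂ) -
      ((c * a2 / (m 0 + m 1) : ℝ) : ℂ) * I) := by
    rw [hx, hy] at h2
    have h4 : w * K ≠ 0 := mul_ne_zero hw0 hK
    apply mul_left_cancel₀ h4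
    linear_combination h2
  have h4 := congrArg Complex.re h3
  have h5 := congrArg Complex.im h3
  simp only [Complex.re_ofReal_mul, Complex.im_ofReal_mul, Complex.sub_re, Complex.sub_im,
    Complex.ofReal_re, Complex.ofReal_im, Complex.I_re, Complex.I_im,
    mul_zero, mul_one, sub_zero, zero_sub, mul_neg, neg_inj] at h4 h5
  have hbd : |((a2 ^ 2 + b2 ^ 2) / 2 - (m 0 + m 1) / r2) -
      ((a1 ^ 2 + b1 ^ 2) / 2 - (m 0 + m 1) / r1)| ≤ 0.012 * |r1 - r2| := by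
    have g1 := hb_eq hm hE1
    have g2 := hb_eq hm hE2
    rw [hn1, hs1] at g1
    rw [hn2, hs2] at g2
    have g3 := WW_lip hm hw hl hr1.le hr1' hr2.le hr2'
    have g4 : WW m (r2 * w) lam - WW m (r1 * w) lam =
        k1 m * (((a2 ^ 2 + b2 ^ 2) / 2 - (m 0 + m 1) / r2) -
      ((a1 ^ 2 + b1 ^ 2) / 2 - (m 0 + m 1) / r1)) := by
      linear_combination g1 - g2
    rw [g4, abs_mul, abs_of_pos hk] at g3
    exact le_of_mul_le_mul_left g3 hk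
  obtain ⟨k1, k2, k3⟩ := core_real hr1 hr2 hM hc0 hb1 hb2 ht0 h4.symm h5.symm hbd (by
    have := mul_le_mul hr1' hr2' hr2.le (by norm_num)
    nlinarith) e1
  exact ⟨k1, by rw [hv1, hv2, k2, k3]⟩

end

end

end Pool.Agent.HM.H10
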