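import Pool.Agent.Helper10_HM.Steq2

/-!
# STEQ: the theorem
-/

set_option autoImplicit false

namespace Pool.Agent.HM.H10

open Complex Set Topology Pool.Agent.HM

noncomputable section

section

variable {m : Fin 3 → ℝ} (hm : Near1 0.01 m)

include hm

theorem k1_bd' : k1 m ≤ 0.51 := by
  obtain ⟨h1, h2⟩ := mpos hm 0
  obtain ⟨h3, h4⟩ := mpos hm 1
  have h5 : 0 < m 0 + m 1 := by linarith
  unfold k1
  rw [div_le_iff₀ h5]
  nlinarith

omit hm in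
theorem nu_sq {lam ν : ℂ} {R S d : ℝ} (hR : 0 < R) (hl : ‖lam‖ = R) (hS : dt lam ν / ‖lam‖ = S)
    (hd : cr lam ν = d) : ‖ν‖ ^ 2 = S ^ 2 + (d / R) ^ 2 := by
  have h1 := sq_dt_cr lam ν
  have h2 : dt lam ν = S * R := by
    rw [← hS, hl]
    field_simp
  rw [hl, h2, hd] at h1
  field_simp
  linear_combination h1

omit hm in
theorem conj_mul_eq (z w : ℂ) : (starRingEnd ℂ) z * w = (dt z w : ℂ) + (cr z w : ℂ) * I := by
  simp only [dt, cr]
  rw [Complex.re_add_im]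

omit hm in
theorem align {ρ lam lam' : ℂ} {θ : ℝ} (hl : lam ≠ 0) (hn : ‖lam‖ = ‖lam'‖)
    (h : ρ / lam = ‖ρ / lam‖ * exp (I * θ)) :
    lam' / lam * ρ = (‖ρ‖ : ℂ) * (exp (I * θ) * lam' / (‖lam'‖ : ℂ)) := by
  have h1 : (‖lam'‖ : ℂ) ≠ 0 := by
    rw [← hn]
    exact_mod_cast (norm_pos_iff.2 hl).ne'
  have h2 : lam' / lam * ρ = lam' * (ρ / lam) := by ring
  rw [h2, h, norm_div, hn]
  push_cast
  field_simp

/-- **STEQ**, general form. -/
theorem steq_gen {X Y : JS} (hX : Lev m X) (hY : Lev m Y) (hRX : 15 ≤ ‖X.2.1‖)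
    (hRY : 15 ≤ ‖Y.2.1‖) (hrX : ‖X.1‖ ≤ 3.3) (hrY : ‖Y.1‖ ≤ 3.3) (hL1 : 0.04 ≤ |LL X|)
    (hL2 : |LL X| ≤ 0.055) (hE : EO m X ≤ 2e-3) (hSS : SS X = SS Y) (hLL : LL X = LL Y)
    (hEO : EO m X = EO m Y) (hgg : gg m X = gg m Y)
    (hθ : ∃ θ : ℝ, X.1 / X.2.1 = ‖X.1 / X.2.1‖ * exp (I * θ) ∧
      Y.1 / Y.2.1 = ‖Y.1 / Y.2.1‖ * exp (I * θ)) : ∃ u : ℂ, ‖u‖ = 1 ∧ Y = rotJ u X := by
  obtain ⟨hXf, hXE, hXM⟩ := hX
  obtain ⟨hYf, hYE, hYM⟩ := hY
  obtain ⟨m1, m2⟩ := mpos hm 0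
  obtain ⟨m3, m4⟩ := mpos hm 1
  obtain ⟨m5, m6⟩ := mpos hm 2
  have hk1 := k1_bd hm
  have hk1' := k1_bd' hm
  have hk2 := k2_bd hm
  have hk2p : 0 < k2 m := by linarith [hk2.1]
  have hmT : mT m = m 0 + m 1 + m 2 := rfl
  -- the areal constants
  set c := cr X.1 X.2.2.1 with hc
  have hcL : LL X = c / 2 := rfl
  have hcY : cr Y.1 Y.2.2.1 = c := by
    have h1 : LL Y = cr Y.1 Y.2.2.1 / 2 := rfl
    rw [hLL, h1] at hcL
    linarith
  have habs : |LL X| = |c| / 2 := by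
    rw [hcL, abs_div]
    norm_num
  have hc1 : 0.08 ≤ |c| := by linarith
  have hc2 : |c| ≤ 0.11 := by linarith
  have hc0 : c ≠ 0 := by
    intro h
    rw [h, abs_zero] at hc1
    norm_num at hc1
  set d := -(k1 m / k2 m) * c with hd
  have hdX : cr X.2.1 X.2.2.2 = d := by
    have h1 : k1 m * c + k2 m * cr X.2.1 X.2.2.2 = 0 := hXM
    rw [hd]
    field_simp
    linarith
  have hdY : cr Y.2.1 Y.2.2.2 = d := by
    have h1 : k1 m * cr Y.1 Y.2.2.1 + k2 m * cr Y.2.1 Y.2.2.2 = 0 := hYM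
    rw [hcY] at h1
    rw [hd]
    field_simp
    linarith
  have hdabs : |d| ≤ 0.1 := by
    rw [hd, abs_mul, abs_neg, abs_of_pos (by positivity)]
    have h1 : k1 m / k2 m ≤ 0.8 := by
      rw [div_le_iff₀ hk2p]
      linarith [hk2.1]
    have := mul_le_mul h1 hc2 (abs_nonneg c) (by norm_num)
    linarith
  have hd2 : d ^ 2 ≤ 1 := by
    rw [← sq_abs, sq]
    have := mul_le_mul hdabs hdabs (abs_nonneg d) (by norm_num)
    linarith
  -- the radii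
  have hRX0 : 0 < ‖X.2.1‖ := by linarith
  have hRY0 : 0 < ‖Y.2.1‖ := by linarith
  have hνX := nu_sq (S := SS X) hRX0 rfl rfl hdX
  have hνY := nu_sq (S := SS Y) hRY0 rfl rfl hdY
  have hR : ‖X.2.1‖ = ‖Y.2.1‖ := by
    refine radius_unique (S := SS X) (d := d) (mt := mT m) hRX hRY hd2 (by rw [hmT]; linarith) ?_
    rw [← hνX]
    rw [← hSS] at hνY
    rw [← hνY]
    exact hEO
  have hlX : X.2.1 ≠ 0 := norm_pos_iff.1 hRX0
  have hlY : Y.2.1 ≠ 0 := norm_pos_iff.1 hRY0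
  -- the rotation
  set u := Y.2.1 / X.2.1 with hu
  have hu1 : ‖u‖ = 1 := by
    rw [hu, norm_div, hR, div_self hRY0.ne']
  have hu2 : u * X.2.1 = Y.2.1 := by
    rw [hu]
    field_simp
  have hu3 : u * X.2.2.2 = Y.2.2.2 := by
    have h1 : (starRingEnd ℂ) X.2.1 * X.2.2.2 = (starRingEnd ℂ) Y.2.1 * Y.2.2.2 := by
      rw [conj_mul_eq, conj_mul_eq, hdX, hdY]
      have h2 : dt X.2.1 X.2.2.2 = SS X * ‖X.2.1‖ := by
        have : SS X = dt X.2.1 X.2.2.2 / ‖X.2.1‖ := rfl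
        rw [this]
        field_simp
      have h3 : dt Y.2.1 Y.2.2.2 = SS Y * ‖Y.2.1‖ := by
        have : SS Y = dt Y.2.1 Y.2.2.2 / ‖Y.2.1‖ := rfl
        rw [this]
        field_simp
      rw [h2, h3, hSS, hR]
    have h4 : (starRingEnd ℂ) Y.2.1 ≠ 0 := by
      simpa using hlY
    apply mul_left_cancel₀ h4
    rw [← h1]
    nth_rewrite 1 [← hu2]
    rw [map_mul]
    have h5 := conj_mul_unit hu1
    linear_combination ((starRingEnd ℂ) X.2.1 * X.2.2.2) * h5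
  have hX' : rotJ u X = (u * X.1, Y.2.1, u * X.2.2.1, Y.2.2.2) := by
    simp only [rotJ, hu2, hu3]
  -- the common direction
  obtain ⟨θ, hθX, hθY⟩ := hθ
  set w := exp (I * θ) * Y.2.1 / (‖Y.2.1‖ : ℂ) with hw
  have hw1 : ‖w‖ = 1 := by
    rw [hw, norm_div, norm_mul, Complex.norm_real, norm_norm, mul_comm I, Complex.norm_exp_ofReal_mul_I,
      one_mul, div_self hRY0.ne']
  have hρX : u * X.1 = (‖X.1‖ : ℂ) * w := align hlX hR hθX
  have hρY : Y.1 = (‖Y.1‖ : ℂ) * w := by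
    have := align hlY rfl hθY
    rwa [div_self hlY, one_mul] at this
  have hr1 : 0 < ‖X.1‖ := norm_pos_iff.2 hXf.1
  have hr2 : 0 < ‖Y.1‖ := norm_pos_iff.2 hYf.1
  -- the other direction
  have hν : ‖Y.2.2.2‖ ^ 2 ≤ 0.42 := by
    have h1 : EO m Y = ‖Y.2.2.2‖ ^ 2 / 3 - 2 * mT m / (3 * ‖Y.2.1‖) := rfl
    have h2 : 2 * mT m / (3 * ‖Y.2.1‖) ≤ 0.135 := by
      rw [div_le_iff₀ (by positivity), hmT]
      linarith
    rw [← hEO] at h1
    linarith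
  have hKn : outm m Y ≠ 0 := by
    intro h0
    have h1 : Y.2.1 / (‖Y.2.1‖ : ℂ) = -(I * (cr Y.2.1 Y.2.2.2 : ℂ) * Y.2.2.2 / (mT m : ℂ)) := by
      have : Y.2.1 / (‖Y.2.1‖ : ℂ) + I * (cr Y.2.1 Y.2.2.2 : ℂ) * Y.2.2.2 / (mT m : ℂ) = 0 := h0
      linear_combination this
    have h2 := congrArg norm h1
    rw [norm_div, Complex.norm_real, norm_norm, div_self hRY0.ne', norm_neg, norm_div, norm_mul,
      norm_mul, Complex.norm_I, Complex.norm_real, Complex.norm_real, hdY, one_mul,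
      Real.norm_eq_abs, Real.norm_of_nonneg (by rw [hmT]; linarith : 0 ≤ mT m)] at h2
    have h3 : 0 < mT m := by rw [hmT]; linarith
    rw [eq_div_iff h3.ne', one_mul] at h2
    have h4 : ‖Y.2.2.2‖ ≤ 1 :=
      (pow_le_one_iff_of_nonneg (norm_nonneg _) two_ne_zero).1 (by linarith)
    have h5 : |d| * ‖Y.2.2.2‖ ≤ 0.1 * 1 := mul_le_mul hdabs h4 (norm_nonneg _) (by norm_num)
    rw [hmT] at h2
    linarith
  have hgr := gg_rot m hu1 X
  rw [hX', hgg] at hgr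
  have hK : (starRingEnd ℂ) (outm m Y) * exp (-(I * gref)) ≠ 0 := by
    refine mul_ne_zero ?_ (Complex.exp_ne_zero _)
    simpa using hKn
  have hJ : JE m ((‖X.1‖ : ℂ) * w, Y.2.1, u * X.2.2.1, Y.2.2.2) = -1 := by
    rw [← hρX, ← hX', JE_rot m hu1]
    exact hXE
  have hJ2 : JE m ((‖Y.1‖ : ℂ) * w, Y.2.1, Y.2.2.1, Y.2.2.2) = -1 := by
    rw [← hρY]
    exact hYE
  obtain ⟨k1, k2⟩ := steq_core hm hw1 hRY hr1 hrX hr2 hrY
    (v1 := u * X.2.2.1) (v2 := Y.2.2.1) (c := c) (ν := Y.2.2.2)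
    (by rw [← hρX, cr_rot hu1]) (by rw [← hρY, hcY]) hc0 hc2 hJ hJ2 hν hK (by
      rw [← hρX, ← hρY]
      have h1 : gg m (u * X.1, Y.2.1, u * X.2.2.1, Y.2.2.2) =
        gref + arg (lrl m (u * X.1, Y.2.1, u * X.2.2.1, Y.2.2.2) *
          (starRingEnd ℂ) (outm m Y) * exp (-(I * gref))) := rfl
      have h2 : gg m Y = gref + arg (lrl m (Y.1, Y.2.1, Y.2.2.1, Y.2.2.2) *
          (starRingEnd ℂ) (outm m Y) * exp (-(I * gref))) := rfl
      rw [h1, h2] at hgr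
      have h3 := add_left_cancel hgr
      rw [mul_assoc, mul_assoc] at h3
      exact h3)
  refine ⟨u, hu1, ?_⟩
  rw [hX']
  refine Prod.ext ?_ (Prod.ext rfl (Prod.ext ?_ rfl))
  · simp only
    rw [hρY, hρX, k1]
  · exact k2.symm

end

/-- **STEQ** -/
theorem steq : SteqStmt := by
  refine ⟨0.01, by norm_num, ?_⟩
  rintro m hm X ⟨hX, hX2, hX3, -, -, hX4, hX5, -, hX6⟩ Y ⟨hY, hY2, hY3, -⟩ h1 h2 h3 h4 h5
  exact steq_gen hm hX hY (by linarith) (by linarith) (by linarith) (by linarith) (by linarith)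
    (by linarith) (by linarith [(abs_le.1 hX6).2]) h1 h2 h3 h4 h5

end

end Pool.Agent.HM.H10
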